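import Mathlib

set_option autoImplicit false

namespace Pool.Agent.H.MP_c73f8e_nt

open Finset

structure Ctx (G ι : Type) [AddCommGroup G] [Fintype ι] [DecidableEq ι] where
  a : ι → G
  s : ℕ
  r : Finset ι → Finset ι
  card : Fintype.card ι = 2 * s + 1
  inj : ∀ X Y : Finset ι, X.card ≤ s → Y.card ≤ s → ∑ i ∈ X, a i = ∑ i ∈ Y, a i → X = Y
  surj : ∀ g : G, ∃ X : Finset ι, X.card ≤ s ∧ ∑ i ∈ X, a i = g
  sub : ∀ B : Finset ι, B.card = s → r B ⊆ B
  sum : ∀ B : Finset ι, B.card = s →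
    ∑ i ∈ r B, a i + ∑ i, a i = ∑ i ∈ B, a i + ∑ i ∈ B, a i

variable {G ι : Type} [AddCommGroup G] [Fintype ι] [DecidableEq ι]

theorem exR (a : ι → G) (s : ℕ) (card : Fintype.card ι = 2 * s + 1)
    (inj : ∀ X Y : Finset ι, X.card ≤ s → Y.card ≤ s → ∑ i ∈ X, a i = ∑ i ∈ Y, a i → X = Y)
    (surj : ∀ g : G, ∃ X : Finset ι, X.card ≤ s ∧ ∑ i ∈ X, a i = g)
    (B : Finset ι) : ∃ R : Finset ι, B.card = s → R ⊆ B ∧
      ∑ i ∈ R, a i + ∑ i, a i = ∑ i ∈ B, a i + ∑ i ∈ B, a i := by
  obtain ⟨X, hX, hs⟩ := surj (∑ i ∈ Bᶜ, a i)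
  refine ⟨B \ X, fun hB => ⟨sdiff_subset, ?_⟩⟩
  have hc : Bᶜ.card = s + 1 := by rw [card_compl, card, hB]; omega
  have hsub : X ⊆ B := by
    intro i hi
    by_contra hn
    have hi' : i ∈ Bᶜ := mem_compl.2 hn
    have e := inj (X.erase i) (Bᶜ.erase i) (by rw [card_erase_of_mem hi]; omega)
      (by rw [card_erase_of_mem hi']; omega)
      (by rw [sum_erase_eq_sub hi, sum_erase_eq_sub hi', hs])
    have := congrArg Finset.card e
    rw [card_erase_of_mem hi, card_erase_of_mem hi'] at this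
    have := card_pos.2 ⟨i, hi⟩
    omega
  have h1 := sum_sdiff (f := a) hsub
  have h2 := sum_add_sum_compl B a
  rw [← h2, ← hs, ← h1]; abel

namespace Ctx
variable (C : Ctx G ι)

theorem F2 {Z : Finset ι} {x y : ι} (hZ : Z.card + 1 = C.s) (hx : x ∉ Z) (hy : y ∉ Z)
    (hxy : x ≠ y) (h1 : x ∈ C.r (insert x Z)) (h2 : y ∈ C.r (insert y Z)) : False := by
  have key : ∀ x, x ∉ Z → x ∈ C.r (insert x Z) →
      ∑ i ∈ insert x (Z \ C.r (insert x Z)), C.a i = ∑ i, C.a i - ∑ i ∈ Z, C.a i := by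
    intro x hx h1
    have hc : (insert x Z).card = C.s := by rw [card_insert_of_notMem hx]; exact hZ
    have e1 := C.sum _ hc
    have e2 := sum_sdiff (f := C.a) (C.sub _ hc)
    have e3 : insert x Z \ C.r (insert x Z) = Z \ C.r (insert x Z) := insert_sdiff_of_mem _ h1
    rw [e3] at e2
    rw [sum_insert (fun h => hx (mem_sdiff.1 h).1)]
    rw [sum_insert hx] at e1 e2
    linear_combination (norm := abel1) e2 - e1
  have cd : ∀ x, (insert x (Z \ C.r (insert x Z))).card ≤ C.s := by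
    intro x
    have := card_insert_le x (Z \ C.r (insert x Z))
    have := card_le_card (sdiff_subset (s := Z) (t := C.r (insert x Z)))
    omega
  have e := C.inj _ _ (cd x) (cd y) ((key x hx h1).trans (key y hy h2).symm)
  have : x ∈ insert y (Z \ C.r (insert y Z)) := e ▸ mem_insert_self _ _
  rcases mem_insert.1 this with h | h
  · exact hxy h
  · exact hx (mem_sdiff.1 h).1

theorem F2' {B : Finset ι} {u v : ι} (hB : B.card = C.s) (hu : u ∈ C.r B) (hv : v ∉ B) :
    v ∉ C.r (insert v (B.erase u)) := by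
  intro h
  have huB := C.sub B hB hu
  refine C.F2 (Z := B.erase u) (x := u) (y := v) ?_ (notMem_erase _ _)
    (fun h => hv (mem_of_mem_erase h)) (fun e => hv (e ▸ huB)) (by rwa [insert_erase huB]) h
  rw [card_erase_add_one huB, hB]

theorem big (X Y : Finset ι) (hX : ¬ X.card ≤ C.s) (hY : ¬ Y.card ≤ C.s)
    (h : ∑ i ∈ X, C.a i = ∑ i ∈ Y, C.a i) : X = Y := by
  have h1 := sum_add_sum_compl X C.a
  have h2 := sum_add_sum_compl Y C.a
  have := C.inj Xᶜ Yᶜ (by rw [card_compl, C.card]; omega) (by rw [card_compl, C.card]; omega)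
    (by linear_combination (norm := abel1) h1 - h2 - h)
  exact compl_injective this

def Part (k : ι) (B D : Finset ι) : Prop :=
  B.card = C.s ∧ D.card = C.s ∧ k ∉ B ∧ k ∉ D ∧ (∀ x, x ∈ B → x ∉ D) ∧
    ∀ x, x = k ∨ x ∈ B ∨ x ∈ D

theorem Part.symm {k : ι} {B D : Finset ι} (h : C.Part k B D) : C.Part k D B :=
  ⟨h.2.1, h.1, h.2.2.2.1, h.2.2.1, fun x a b => h.2.2.2.2.1 x b a,
    fun x => by have := h.2.2.2.2.2 x; tauto⟩

theorem Part.swap {k : ι} {B D : Finset ι} (h : C.Part k B D) {u v : ι} (hu : u ∈ D)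
    (hv : v ∈ B) : C.Part k (insert u (B.erase v)) (insert v (D.erase u)) := by
  obtain ⟨h1, h2, h3, h4, h5, h6⟩ := h
  have huB : u ∉ B := fun h => h5 u h hu
  have hvD : v ∉ D := h5 v hv
  refine ⟨?_, ?_, ?_, ?_, ?_, ?_⟩
  · rw [card_insert_of_notMem (fun h => huB (mem_of_mem_erase h)), card_erase_add_one hv, h1]
  · rw [card_insert_of_notMem (fun h => hvD (mem_of_mem_erase h)), card_erase_add_one hu, h2]
  · simp only [mem_insert, mem_erase]; rintro (rfl | h); exact h4 hu; exact h3 h.2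
  · simp only [mem_insert, mem_erase]; rintro (rfl | h); exact h3 hv; exact h4 h.2
  · intro x; simp only [mem_insert, mem_erase]
    rintro (rfl | h) (e | e)
    · exact huB (e ▸ hv)
    · exact e.1 rfl
    · exact h.1 e
    · exact h5 x h.2 e.2
  · intro x; simp only [mem_insert, mem_erase]
    have := h6 x
    by_cases x = u <;> by_cases x = v <;> tauto

theorem exPart {k : ι} {B : Finset ι} (hB : B.card = C.s) (hk : k ∉ B) :
    C.Part k B (insert k B)ᶜ := by
  refine ⟨hB, ?_, hk, by simp, ?_, ?_⟩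
  · rw [card_compl, card_insert_of_notMem hk, C.card, hB]; omega
  · intro x hx; simp [hx]
  · intro x; simp only [mem_compl, mem_insert]; tauto

theorem Part.sumW {k : ι} {B D : Finset ι} (h : C.Part k B D) :
    ∑ i ∈ C.r B ∪ C.r D, C.a i = -(C.a k + C.a k) := by
  obtain ⟨h1, h2, h3, h4, h5, h6⟩ := h
  have d1 : Disjoint B D := disjoint_left.2 h5
  rw [sum_union (d1.mono (C.sub B h1) (C.sub D h2))]
  have e1 := C.sum B h1
  have e2 := C.sum D h2
  have e3 : (univ : Finset ι) = insert k (B ∪ D) := by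
    ext x; simp only [mem_univ, mem_insert, mem_union, true_iff]; exact h6 x
  have e4 : ∑ i, C.a i = C.a k + (∑ i ∈ B, C.a i + ∑ i ∈ D, C.a i) := by
    rw [e3, sum_insert (by simp [h3, h4]), sum_union d1]
  linear_combination (norm := abel1) e1 + e2 - e4 - e4

theorem Part.dich {k : ι} {B D B' D' S : Finset ι} (h : C.Part k B D) (h' : C.Part k B' D')
    (hL : ¬ (C.r B ∪ C.r D).card ≤ C.s) (hS : S.card ≤ C.s)
    (eS : ∑ i ∈ S, C.a i = -(C.a k + C.a k)) :
    C.r B' ∪ C.r D' = S ∨ C.r B' ∪ C.r D' = C.r B ∪ C.r D := by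
  by_cases hc : (C.r B' ∪ C.r D').card ≤ C.s
  · exact Or.inl (C.inj _ _ hc hS ((Part.sumW C h').trans eS.symm))
  · exact Or.inr (C.big _ _ hc hL ((Part.sumW C h').trans (Part.sumW C h).symm))

theorem stepA {k : ι} {B D S : Finset ι} (h : C.Part k B D)
    (hL : ¬ (C.r B ∪ C.r D).card ≤ C.s) (hS : S.card ≤ C.s)
    (eS : ∑ i ∈ S, C.a i = -(C.a k + C.a k)) {u v : ι} (hu : u ∈ C.r D) (hv : v ∈ C.r B) :
    u ∉ S ∧ k ∉ S := by
  have huD := C.sub D h.2.1 hu
  have hvB := C.sub B h.1 hv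
  have h' := Part.swap C h huD hvB
  have huB : u ∉ B := fun e => h.2.2.2.2.1 u e huD
  have n1 : u ∉ C.r (insert u (B.erase v)) ∪ C.r (insert v (D.erase u)) := by
    intro e
    rcases mem_union.1 e with e | e
    · exact C.F2' h.1 hv huB e
    · exact h'.2.2.2.2.1 u (mem_insert_self _ _) (C.sub _ h'.2.1 e)
  rcases Part.dich C h h' hL hS eS with e | e
  · rw [← e]
    refine ⟨n1, fun e => ?_⟩
    rcases mem_union.1 e with e | e
    · exact h'.2.2.1 (C.sub _ h'.1 e)
    · exact h'.2.2.2.1 (C.sub _ h'.2.1 e)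
  · exact absurd (e ▸ mem_union_right _ hu) n1

theorem stepB {k : ι} {B D S : Finset ι} (h : C.Part k B D)
    (hL : ¬ (C.r B ∪ C.r D).card ≤ C.s) (hS : S.card ≤ C.s)
    (eS : ∑ i ∈ S, C.a i = -(C.a k + C.a k)) (h2 : 1 < (C.r D).card) {v : ι} (hv : v ∈ B) :
    v ∉ S := by
  obtain ⟨x, hx, y, hy, hxy⟩ := one_lt_card.1 h2
  intro hvS
  have hvD : v ∉ D := h.2.2.2.2.1 v hv
  have key : ∀ u ∈ C.r D, u ∈ C.r (insert u (B.erase v)) := by
    intro u hu
    have huD := C.sub D h.2.1 hu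
    have h' := Part.swap C h huD hv
    rcases Part.dich C h h' hL hS eS with e | e
    · exfalso
      rw [← e] at hvS
      rcases mem_union.1 hvS with e | e
      · exact h'.2.2.2.2.1 v (C.sub _ h'.1 e) (mem_insert_self _ _)
      · exact C.F2' h.2.1 hu hvD e
    · have : u ∈ C.r (insert u (B.erase v)) ∪ C.r (insert v (D.erase u)) :=
        e ▸ mem_union_right _ hu
      rcases mem_union.1 this with e | e
      · exact e
      · exact absurd (C.sub _ h'.2.1 e) (h'.2.2.2.2.1 u (mem_insert_self _ _))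
  refine C.F2 (Z := B.erase v) (by rw [card_erase_add_one hv, h.1]) ?_ ?_ hxy (key x hx) (key y hy)
  · exact fun e => h.2.2.2.2.1 x (mem_of_mem_erase e) (C.sub D h.2.1 hx)
  · exact fun e => h.2.2.2.2.1 y (mem_of_mem_erase e) (C.sub D h.2.1 hy)

theorem stepC {k : ι} {B D : Finset ι} (h : C.Part k B D)
    (hL : ¬ (C.r B ∪ C.r D).card ≤ C.s) (h2 : 1 < (C.r D).card) : C.a k + C.a k = 0 := by
  obtain ⟨S, hS, eS⟩ := C.surj (-(C.a k + C.a k))
  have c1 := card_union_le (C.r B) (C.r D)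
  have c2 := card_le_card (C.sub D h.2.1)
  have c3 := h.2.1
  obtain ⟨v, hv⟩ := card_pos.1 (show 0 < (C.r B).card by omega)
  obtain ⟨u, hu⟩ := card_pos.1 (show 0 < (C.r D).card by omega)
  have : S = ∅ := by
    refine eq_empty_of_forall_notMem fun x => ?_
    rcases h.2.2.2.2.2 x with rfl | e | e
    · exact (C.stepA h hL hS eS hu hv).2
    · exact C.stepB h hL hS eS h2 e
    · by_cases h3 : 1 < (C.r B).card
      · exact C.stepB (Part.symm C h) (by rwa [union_comm]) hS eS h3 e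
      · have : C.r D = D := eq_of_subset_of_card_le (C.sub D h.2.1) (by omega)
        exact (C.stepA h hL hS eS (this.symm ▸ e) hv).1
  rw [this, sum_empty] at eS
  exact neg_eq_zero.1 eS.symm

theorem exZ (T : Finset ι) (n : ℕ) (h : n + T.card ≤ 2 * C.s + 1) :
    ∃ Z : Finset ι, Z.card = n ∧ ∀ x ∈ T, x ∉ Z := by
  obtain ⟨Z, h1, h2⟩ := exists_subset_card_eq (s := Tᶜ) (n := n)
    (by rw [card_compl, C.card]; omega)
  exact ⟨Z, h2, fun x hx e => mem_compl.1 (h1 e) hx⟩

theorem stepD (hs : 2 ≤ C.s) {k : ι} (hk : C.a k + C.a k ≠ 0) :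
    ∃ l, l ≠ k ∧ C.a l = -(C.a k + C.a k) ∧
      ∀ B : Finset ι, B.card = C.s → k ∉ B → C.r B = {l} ∩ B := by
  obtain ⟨S, hS, eS⟩ := C.surj (-(C.a k + C.a k))
  have key : ∀ B : Finset ι, B.card = C.s → k ∉ B → C.r B = S ∩ B ∧ k ∉ S := by
    intro B hB hkB
    have h := C.exPart hB hkB
    set D := (insert k B)ᶜ
    have hc : (C.r B ∪ C.r D).card ≤ C.s := by
      by_contra hL
      have c1 := card_union_le (C.r B) (C.r D)
      by_cases h3 : 1 < (C.r D).card
      · exact hk (C.stepC h hL h3)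
      · exact hk (C.stepC (Part.symm C h) (by rwa [union_comm]) (by omega))
    have e := C.inj _ _ hc hS ((Part.sumW C h).trans eS.symm)
    rw [← e]
    refine ⟨?_, fun e => ?_⟩
    · ext x
      simp only [mem_inter, mem_union]
      refine ⟨fun e => ⟨Or.inl e, C.sub B hB e⟩, ?_⟩
      rintro ⟨e | e, e'⟩
      · exact e
      · exact absurd (C.sub _ h.2.1 e) (h.2.2.2.2.1 x e')
    · rcases mem_union.1 e with e | e
      · exact hkB (C.sub _ hB e)
      · exact h.2.2.2.1 (C.sub _ h.2.1 e)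
  obtain ⟨B0, b1, b2⟩ := C.exZ {k} C.s (by simp; omega)
  have hkS := (key B0 b1 (b2 k (by simp))).2
  have ne : S.Nonempty := by
    rw [nonempty_iff_ne_empty]; rintro rfl
    rw [sum_empty] at eS
    exact hk (neg_eq_zero.1 eS.symm)
  have c1 : S.card ≤ 1 := by
    by_contra hh
    obtain ⟨x, hx, y, hy, hxy⟩ := one_lt_card.1 (not_le.1 hh)
    obtain ⟨Z, z1, z2⟩ := C.exZ {k, x, y} (C.s - 1) (by have := card_le_three (a := k) (b := x) (c := y); omega)
    have m : ∀ x ∈ S, x ∉ Z → x ∈ C.r (insert x Z) := by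
      intro x hx hz
      rw [(key _ (by rw [card_insert_of_notMem hz]; omega) (by
        simp only [mem_insert]; rintro (rfl | e); exact hkS hx; exact z2 k (by simp) e)).1]
      exact mem_inter.2 ⟨hx, mem_insert_self _ _⟩
    exact C.F2 (Z := Z) (by omega) (z2 x (by simp)) (z2 y (by simp)) hxy
      (m x hx (z2 x (by simp))) (m y hy (z2 y (by simp)))
  obtain ⟨l, rfl⟩ := card_eq_one.1 (le_antisymm c1 (card_pos.2 ne))
  refine ⟨l, fun e => hkS (by simp [e]), by simpa using eS, fun B h1 h2 => (key B h1 h2).1⟩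

theorem struct (hs : 2 ≤ C.s) {k : ι} (hk : C.a k + C.a k ≠ 0) :
    ∃ l, (∀ i, i ≠ l → C.a i + C.a i = C.a l) ∧ C.a l + C.a l = 0 ∧
      ∑ i, C.a i = C.s • C.a l := by
  obtain ⟨l, hl, el, H⟩ := C.stepD hs hk
  have ins : ∀ (Z : Finset ι) (x : ι), Z.card = C.s - 1 → x ∉ Z →
      ∑ i ∈ C.r (insert x Z), C.a i + ∑ i, C.a i
        = (C.a x + C.a x) + (∑ i ∈ Z, C.a i + ∑ i ∈ Z, C.a i) := by
    intro Z x h1 h2
    rw [C.sum _ (by rw [card_insert_of_notMem h2]; omega), sum_insert h2]; abel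
  have h1 : ∀ i, i ≠ k → i ≠ l → C.a i + C.a i = C.a l := by
    intro i i1 i2
    obtain ⟨Z, z1, z2⟩ := C.exZ {k, l, i} (C.s - 1) (by have := card_le_three (a := k) (b := l) (c := i); omega)
    have k1 := z2 k (by simp)
    have k2 := z2 l (by simp)
    have k3 := z2 i (by simp)
    have e1 := ins Z i z1 k3
    have e2 := ins Z l z1 k2
    rw [H _ (by rw [card_insert_of_notMem k3]; omega) (by simp [k1, i1.symm]),
      singleton_inter_of_notMem (by simp [k2, i2.symm]), sum_empty] at e1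
    rw [H _ (by rw [card_insert_of_notMem k2]; omega) (by simp [k1, hl.symm]),
      singleton_inter_of_mem (by simp), sum_singleton] at e2
    linear_combination (norm := abel1) e2 - e1
  have dbl : ∀ Z : Finset ι, k ∉ Z → l ∉ Z →
      ∑ i ∈ Z, C.a i + ∑ i ∈ Z, C.a i = Z.card • C.a l := by
    intro Z a b
    rw [← sum_add_distrib, ← sum_const]
    exact sum_congr rfl fun i hi => h1 i (fun e => a (e ▸ hi)) (fun e => b (e ▸ hi))
  have hT : ∑ i, C.a i = C.s • C.a l := by
    obtain ⟨Z, z1, z2⟩ := C.exZ {k, l} C.s (by have := card_le_two (a := k) (b := l); omega)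
    have k1 := z2 k (by simp)
    have k2 := z2 l (by simp)
    have e := C.sum Z z1
    rwa [H Z z1 k1, singleton_inter_of_notMem k2, sum_empty, zero_add, dbl Z k1 k2, z1] at e
  obtain ⟨S, hS, eS⟩ := C.surj (-(C.a l + C.a l))
  have sub : S ⊆ {k} := by
    intro x hx
    by_contra hxk
    rw [mem_singleton] at hxk
    obtain ⟨Z, z1, z2⟩ := C.exZ {k, l, x} (C.s - 1) (by have := card_le_three (a := k) (b := l) (c := x); omega)
    have k1 := z2 k (by simp)
    have k2 := z2 l (by simp)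
    have k3 := z2 x (by simp)
    have cB : (insert k Z).card = C.s := by rw [card_insert_of_notMem k1]; omega
    have e1 := ins Z k z1 k1
    have e2 : C.s • C.a l = (C.s - 1) • C.a l + C.a l := by
      rw [← succ_nsmul]; congr 1; omega
    rw [dbl Z k1 k2, z1, hT, e2] at e1
    have e := C.inj (C.r (insert k Z)) S ((card_le_card (C.sub _ cB)).trans cB.le) hS
      (by rw [eS]; linear_combination (norm := abel1) e1 + el)
    have := C.sub _ cB (e ▸ hx)
    simp [hxk, k3] at this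
  have h2 : C.a l + C.a l = 0 := by
    rcases subset_singleton_iff.1 sub with rfl | rfl
    · rw [sum_empty] at eS
      exact neg_eq_zero.1 eS.symm
    · rw [sum_singleton] at eS
      have := C.inj {k} {l} (by simp; omega) (by simp; omega) (by
        rw [sum_singleton, sum_singleton]
        linear_combination (norm := abel1) el - eS)
      exact absurd (singleton_injective this).symm hl
  refine ⟨l, fun i hi => ?_, h2, hT⟩
  by_cases e : i = k
  · rw [e]; linear_combination (norm := abel1) el - h2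
  · exact h1 i e hi

end Ctx

end Pool.Agent.H.MP_c73f8e_nt
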