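import Pool.Agent.H.MP_c73f8e_nt.A

set_option autoImplicit false

namespace Pool.Agent.H.MP_c73f8e_nt

open Finset

variable {G ι : Type} [AddCommGroup G] [Fintype ι] [DecidableEq ι]

theorem exHom (n : ℕ) (g : G) (h : n • g = 0) : ∃ f : ZMod n →+ G, f 1 = g := by
  refine ⟨ZMod.lift n ⟨zmultiplesHom G g, by simpa using h⟩, ?_⟩
  have := ZMod.lift_coe n ⟨zmultiplesHom G g, by simpa using h⟩ 1
  simpa using this

theorem case1 [Finite G] (n : ℕ) (hG : Nat.card G = 2 ^ n) (h : ∀ g : G, g + g = 0) :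
    Nonempty (G ≃+ (Fin n → ZMod 2)) := by
  letI : Module (ZMod 2) G := AddCommGroup.zmodModule (n := 2) (fun g => by rw [two_nsmul, h])
  haveI : Module.Finite (ZMod 2) G := Module.Finite.of_finite
  have e := Module.natCard_eq_pow_finrank (K := ZMod 2) (V := G)
  rw [hG, Nat.card_zmod] at e
  have e' : Module.finrank (ZMod 2) G = n := (Nat.pow_right_injective le_rfl e).symm
  have e2 : Module.finrank (ZMod 2) G = Module.finrank (ZMod 2) (Fin n → ZMod 2) := by
    rw [e', Module.finrank_fin_fun]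
  exact ⟨(LinearEquiv.ofFinrankEq G (Fin n → ZMod 2) e2).toAddEquiv⟩

theorem case2 [Finite G] (n : ℕ) (hG : Nat.card G = 2 ^ (n + 2)) (x : G) (hx : 4 • x = 0)
    (y : Fin n → G) (hy : ∀ j, 2 • y j = 0)
    (gen : ∀ K : AddSubgroup G, x ∈ K → (∀ j, y j ∈ K) → ∀ g, g ∈ K) :
    Nonempty (G ≃+ (Fin n → ZMod 2) × ZMod 4) := by
  obtain ⟨f, hf⟩ := exHom 4 x hx
  choose u hu using fun j => exHom 2 (y j) (hy j)
  let φ : (Fin n → ZMod 2) × ZMod 4 →+ G :=
    AddMonoidHom.coprod (∑ j, (u j).comp (Pi.evalAddMonoidHom (fun _ => ZMod 2) j)) f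
  have sj : Function.Surjective φ := by
    intro g
    refine gen φ.range ⟨(0, 1), by simp [φ, hf]⟩ (fun j => ⟨(Pi.single j 1, 0), ?_⟩) g
    simp only [φ, AddMonoidHom.coprod_apply, map_zero, add_zero, AddMonoidHom.finsetSum_apply,
      AddMonoidHom.comp_apply, Pi.evalAddMonoidHom_apply]
    rw [sum_eq_single j (fun b _ hb => by simp [hb]) (by simp)]
    simp [hu]
  have bj : Function.Bijective φ := sj.bijective_of_nat_card_le (by
    rw [hG]; simp [pow_add])
  exact ⟨(AddEquiv.ofBijective φ bj).symm⟩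

theorem main [Finite G] (a : ι → G) (s : ℕ) (hs : 1 ≤ s) (hG : Nat.card G = 2 ^ (2 * s))
    (card : Fintype.card ι = 2 * s + 1)
    (inj : ∀ X Y : Finset ι, X.card ≤ s → Y.card ≤ s → ∑ i ∈ X, a i = ∑ i ∈ Y, a i → X = Y)
    (surj : ∀ g : G, ∃ X : Finset ι, X.card ≤ s ∧ ∑ i ∈ X, a i = g) :
    Nonempty (G ≃+ (Fin (2 * s) → ZMod 2)) ∨
      Nonempty (G ≃+ (Fin (2 * s - 2) → ZMod 2) × ZMod 4) := by
  classical
  by_cases h0 : ∀ k, a k + a k = 0
  · refine Or.inl (case1 _ hG fun g => ?_)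
    obtain ⟨X, -, rfl⟩ := surj g
    rw [← sum_add_distrib]
    exact sum_eq_zero fun i _ => h0 i
  push Not at h0
  obtain ⟨k, hk⟩ := h0
  have hG' : Nat.card G = 2 ^ (2 * s - 2 + 2) := by rw [hG]; congr 1; omega
  have gen : ∀ K : AddSubgroup G, (∀ i, a i ∈ K) → ∀ g, g ∈ K := by
    intro K h g
    obtain ⟨X, -, rfl⟩ := surj g
    exact K.sum_mem fun i _ => h i
  right
  rcases hs.eq_or_lt with rfl | hs2
  · have h4 : (2 ^ (1 + 1)) • a k = 0 := by
      have := card_nsmul_eq_zero' (x := a k)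
      rwa [hG] at this
    haveI : Fact (Nat.Prime 2) := ⟨Nat.prime_two⟩
    have o := addOrderOf_eq_prime_pow (p := 2) (n := 1) (x := a k)
      (by rwa [pow_one, two_nsmul]) h4
    refine case2 _ hG' (a k) h4 (fun _ => 0) (by simp) fun K h _ g => ?_
    have : AddSubgroup.zmultiples (a k) = ⊤ := by
      apply AddSubgroup.eq_top_of_card_eq
      rw [Nat.card_zmultiples, o, hG]
    exact (AddSubgroup.zmultiples_le.2 h) (this ▸ AddSubgroup.mem_top g)
  choose r hr using exR a s card inj surj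
  let C : Ctx G ι := ⟨a, s, r, card, inj, surj, fun B h => (hr B h).1, fun B h => (hr B h).2⟩
  obtain ⟨l, h1, h2, h3⟩ : ∃ l, (∀ i, i ≠ l → a i + a i = a l) ∧ a l + a l = 0 ∧
      ∑ i, a i = s • a l := C.struct hs2 hk
  obtain ⟨Z, z1, z2⟩ := C.exZ {l} 2 (by simp; exact hs)
  obtain ⟨p, q, hpq, rfl⟩ := card_eq_two.1 z1
  have hl := z2 l (by simp)
  simp only [mem_insert, mem_singleton, not_or] at hl
  have cJ : (({l, p, q} : Finset ι)ᶜ).card = 2 * s - 2 := by
    rw [card_compl, card, card_eq_three.2 ⟨l, p, q, hl.1, hl.2, hpq, rfl⟩]; omega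
  let e := (({l, p, q} : Finset ι)ᶜ).equivFinOfCardEq cJ
  have hp := h1 p (Ne.symm hl.1)
  refine case2 _ hG' (a p) ?_ (fun j => a (e.symm j).1 - a p) (fun j => ?_) fun K hK hJ => ?_
  · linear_combination (norm := abel1) hp + hp + h2
  · have := h1 (e.symm j).1 (fun h => by
      have := (e.symm j).2
      simp [h] at this)
    linear_combination (norm := abel1) this - hp
  · have Kl : a l ∈ K := hp ▸ K.add_mem hK hK
    have Ki : ∀ i, i ≠ q → a i ∈ K := by
      intro i hi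
      by_cases e1 : i = l
      · exact e1 ▸ Kl
      by_cases e2 : i = p
      · exact e2 ▸ hK
      have := K.add_mem (hJ (e ⟨i, by simp [e1, e2, hi]⟩)) hK
      simpa using this
    refine gen K fun i => ?_
    by_cases hi : i = q
    · have e1 := add_sum_erase univ a (mem_univ q)
      have : a q = s • a l - ∑ i ∈ univ.erase q, a i := by
        rw [← h3, ← e1]; abel
      rw [hi, this]
      exact K.sub_mem (K.nsmul_mem Kl _) (K.sum_mem fun i hi => Ki i (mem_erase.1 hi).1)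
    · exact Ki i hi

end Pool.Agent.H.MP_c73f8e_nt
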